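import Pool.Agent.H741R2.LJDefs
import Pool.Agent.H633R2.FptDefs

/-!
# Single-machine throughput scheduling with the parameter `p_max`: definitions
-/

namespace Pool.Agent.H257R2.LJW

open Pool.Agent.NPC Pool.Agent.H633R2 Pool.Agent.H741R2.LJ

/-- The decision version of `1 | r_j | ∑ U_j`.  An instance is a list of jobs `(r_j, p_j, d_j)` with
`1 ≤ p_j` and a bound `k`; is there a schedule with at most `k` late jobs?  (Numbers are written
in binary.) -/
def Jobs (I : List (ℕ × ℕ × ℤ) × ℕ) : Prop :=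
  (∀ j ∈ I.1, 1 ≤ j.2.1) ∧
    ∃ S : Fin I.1.length → ℝ, IsSchedule (fun j => I.1[j].1) (fun j => I.1[j].2.1) S ∧
      {j | Late (fun j => I.1[j].2.1) (fun j => I.1[j].2.2) S j}.ncard ≤ I.2

open Classical in
/-- The decision version of `1 | r_j | ∑ w_j U_j`.  An instance is a list of jobs
`(r_j, p_j, d_j, w_j)` with `1 ≤ p_j`, `1 ≤ w_j` and a bound `k`; is there a schedule such that the
total weight of the late jobs is at most `k`?  (Numbers are written in binary.) -/
def WJobs (I : List (ℕ × ℕ × ℤ × ℕ) × ℕ) : Prop :=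
  (∀ j ∈ I.1, 1 ≤ j.2.1 ∧ 1 ≤ j.2.2.2) ∧
    ∃ S : Fin I.1.length → ℝ, IsSchedule (fun j => I.1[j].1) (fun j => I.1[j].2.1) S ∧
      ∑ j with Late (fun j => I.1[j].2.1) (fun j => I.1[j].2.2.1) S j, I.1[j].2.2.2 ≤ I.2

/-- The parameter `p_max` of an instance of `Jobs`: the maximum of the processing times (`0` if
there is no job). -/
def pmax (I : List (ℕ × ℕ × ℤ) × ℕ) : ℕ := I.1.foldr (fun j m => max j.2.1 m) 0

/-- The parameter `p_max` of an instance of `WJobs`. -/
def wpmax (I : List (ℕ × ℕ × ℤ × ℕ) × ℕ) : ℕ := I.1.foldr (fun j m => max j.2.1 m) 0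

/-- `XpTime κ f`: some Turing machine computes `f` within `h (κ a) * (|a| ^ e (κ a) + 1)` steps, for
computable functions `h` and `e`; here `|a|` is the length of the code of the instance `a` and
`κ a` is its parameter. -/
def XpTime {α β : Type} [TEnc α] [TEnc β] (κ : α → ℕ) (f : α → β) : Prop :=
  ∃ (M : Turing.TM2ComputableAux Bool Bool) (h e : ℕ → ℕ), Computable h ∧ Computable e ∧
    ∀ a, TmRuns M (bits a) (bits (f a)) (h (κ a) * ((bits a).length ^ e (κ a) + 1))

/-- The parameterized problem is in the class `XP`. -/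
def InXP {α : Type} [TEnc α] (κ : α → ℕ) (P : α → Prop) : Prop :=
  ∃ d : α → Bool, XpTime κ d ∧ ∀ a, d a = true ↔ P a

end Pool.Agent.H257R2.LJW
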