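import Pool.Agent.H633R2.Fpt
import Pool.Agent.NPC.Dec
import Pool.Agent.H671R2.OrdNP2
import Pool.Agent.H257R2.LJW.Defs

/-!
# Clique is in `NP`; para-`NP`-hardness implies `W[1]`-hardness
-/

namespace Pool.Agent.H257R2.LJW

open Pool.Agent.NPC Pool.Agent.NPC.R671 Pool.Agent.H671R2.Ord Pool.Agent.H633R2

/-- the test of a pair of vertices -/
def tst (M : List (List Bool)) (w : List Bool) (i j : ℕ) : Bool :=
  !(w.getD i false) || (!(w.getD j false) || (decide (i = j) || (entry M i j || entry M j i)))

/-- the verifier: the certificate is the characteristic vector of the clique -/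
def R (x : (List (List Bool) × ℕ) × List Bool) : Bool :=
  decide (x.2.length = x.1.1.length) && (decide ((x.2.filter id).length = x.1.2) &&
    (List.range x.2.length).all (fun i => (List.range x.2.length).all (fun j =>
      tst x.1.1 x.2 i j)))

theorem filter_ofFn {n : ℕ} (f : Fin n → Bool) :
    ((List.ofFn f).filter id).length = (Finset.univ.filter (fun i => f i = true)).card := by
  rw [← List.countP_eq_length_filter]
  induction n with
  | zero => simp
  | succ n ih =>
    rw [List.ofFn_succ, List.countP_cons, ih, Fin.card_filter_univ_succ]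
    by_cases h : f 0 = true
    · simp [h]
    · simp [h]

theorem correct (x : List (List Bool) × ℕ) : HasClique x ↔ ∃ w : List Bool, R (x, w) = true := by
  obtain ⟨M, k⟩ := x
  constructor
  · rintro ⟨S, hS⟩
    rw [SimpleGraph.isNClique_iff, SimpleGraph.isClique_iff] at hS
    obtain ⟨h1, h2⟩ := hS
    refine ⟨List.ofFn (fun i : Fin M.length => decide (i ∈ S)), ?_⟩
    simp only [R, Bool.and_eq_true, decide_eq_true_eq, List.all_eq_true, List.mem_range,
      List.length_ofFn, filter_ofFn]
    refine ⟨trivial, ?_, ?_⟩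
    · simp only [Finset.filter_mem_eq_inter, Finset.univ_inter]
      exact h2
    · intro i hi j hj
      have e1 : (List.ofFn (fun i : Fin M.length => decide (i ∈ S))).getD i false =
          decide ((⟨i, hi⟩ : Fin M.length) ∈ S) := by
        rw [List.getD_eq_getElem?_getD, List.getElem?_eq_getElem (by rw [List.length_ofFn]; exact hi),
          List.getElem_ofFn, Option.getD_some]
      have e2 : (List.ofFn (fun i : Fin M.length => decide (i ∈ S))).getD j false =
          decide ((⟨j, hj⟩ : Fin M.length) ∈ S) := by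
        rw [List.getD_eq_getElem?_getD, List.getElem?_eq_getElem (by rw [List.length_ofFn]; exact hj),
          List.getElem_ofFn, Option.getD_some]
      simp only [tst, e1, e2, Bool.or_eq_true, Bool.not_eq_true', decide_eq_false_iff_not,
        decide_eq_true_eq]
      by_cases g1 : (⟨i, hi⟩ : Fin M.length) ∈ S
      · by_cases g2 : (⟨j, hj⟩ : Fin M.length) ∈ S
        · by_cases g3 : i = j
          · simp [g3]
          · have := h1 g1 g2 (fun h => g3 (congrArg Fin.val h))
            have h4 := this.2
            simp only at h4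
            simp [h4]
        · simp [g2]
      · simp [g1]
  · rintro ⟨w, hw⟩
    simp only [R, Bool.and_eq_true, decide_eq_true_eq, List.all_eq_true, List.mem_range] at hw
    obtain ⟨hlen, hcnt, htst⟩ := hw
    have hl : ∀ i : Fin M.length, (i : ℕ) < w.length := fun i => by rw [hlen]; exact i.isLt
    refine ⟨Finset.univ.filter (fun i : Fin M.length => w[(i : ℕ)]'(hl i) = true), ?_⟩
    rw [SimpleGraph.isNClique_iff, SimpleGraph.isClique_iff]
    constructor
    · intro i hi j hj hij
      simp only [Finset.coe_filter, Finset.mem_univ, true_and, Set.mem_ofPred_eq] at hi hj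
      have h2 := htst i (hl i) j (hl j)
      simp only [tst, Bool.or_eq_true, Bool.not_eq_true', decide_eq_true_eq,
        List.getD_eq_getElem?_getD, List.getElem?_eq_getElem (hl i),
        List.getElem?_eq_getElem (hl j), Option.getD_some, hi, hj] at h2
      refine ⟨hij, ?_⟩
      rcases h2 with h2 | h2 | h2 | h2
      · exact absurd h2 (by decide)
      · exact absurd h2 (by decide)
      · exact absurd (Fin.ext h2) hij
      · exact h2
    · rw [← hcnt]
      have e : w = List.ofFn (fun i : Fin M.length => w[(i : ℕ)]'(hl i)) := by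
        apply List.ext_getElem
        · rw [List.length_ofFn, hlen]
        · intro i h1 h2
          rw [List.getElem_ofFn]
      conv_rhs => rw [e]
      rw [filter_ofFn]

theorem sz_bools (w : List Bool) : sz w ≤ 4 * w.length + 1 := by
  have := sz_le_length_mul w 3 (fun a _ => by cases a <;> decide)
  omega

theorem cert_short {x : List (List Bool) × ℕ} {w : List Bool} (h : R (x, w) = true) :
    sz w ≤ (4 * Polynomial.X + 1 : Polynomial ℕ).eval (sz x) := by
  simp only [R, Bool.and_eq_true, decide_eq_true_eq] at h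
  have h1 : x.1.length ≤ sz x := by
    obtain ⟨M, u⟩ := x
    have := length_lt_sz M
    rw [sz_pair]
    simp only at this ⊢
    omega
  have h2 := sz_bools w
  simp only [Polynomial.eval_add, Polynomial.eval_mul, Polynomial.eval_X,
    Polynomial.eval_ofNat, Polynomial.eval_one]
  omega

theorem entry_poly {α : Type} [TEnc α] {M : α → List (List Bool)} {i j : α → ℕ} (hM : Poly M)
    (hi : Poly i) (hj : Poly j) : Poly (fun a => entry (M a) (i a) (j a)) := by
  unfold entry
  fun_prop

attribute [local fun_prop] entry_poly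

theorem tst_poly : Poly (fun x : (((List (List Bool) × ℕ) × List Bool) × ℕ) × ℕ =>
    tst x.1.1.1.1 x.1.1.2 x.1.2 x.2) := by
  unfold tst
  fun_prop

attribute [local irreducible] tst

theorem R_poly : Poly R := by
  unfold R
  have h1 : UPoly (fun x : (List (List Bool) × ℕ) × List Bool => x.2.length) :=
    UPoly.length (by fun_prop)
  refine NPC.Poly.and (by fun_prop) (NPC.Poly.and ?_ ?_)
  · refine Poly.decide_eq (UPoly.length ?_).toPoly (by fun_prop)
    exact Poly.filter (p := fun _ b => b) (by fun_prop) (by fun_prop)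
  exact all2_poly (α := (List (List Bool) × ℕ) × List Bool) (m := fun x => x.2.length) h1
    (F := fun x i j => tst x.1.1 x.2 i j) tst_poly

/-- Clique is in `NP`. -/
theorem inNPP_clique : InNPP HasClique := by
  refine inNPP_of (R := R) R_poly (4 * Polynomial.X + 1) ?_
  intro x
  rw [correct]
  exact exists_congr fun w => ⟨fun h => ⟨cert_short h, h⟩, fun h => h.2⟩

/-- If `Q` is hard for instances with parameter at most `c`, then `Q` is `W[1]`-hard. -/
theorem w1Hard_of_hardPr {β : Type} [TEnc β] {κ : β → ℕ} {Q : β → Prop} (c : ℕ)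
    (h : HardPr (fun y => κ y ≤ c) Q) : W1Hard κ Q := by
  refine W1Hard.of_clique ?_
  obtain ⟨f, hf, hpr, hfL⟩ := h (lang HasClique) inNPP_clique
  refine ⟨fun a => f (bits a), fun _ => c, FptTime.of_poly ?_, Computable.const c, fun a =>
    ⟨?_, hpr _⟩⟩
  · obtain ⟨C, p, hC⟩ := hf
    exact ⟨C, p, fun a => hC (bits a)⟩
  · rw [← hfL, bits_mem_lang]

/-- the coding of a subtype -/
instance subEnc {α : Type} [TEnc α] (p : α → Prop) : TEnc {a // p a} :=
  ⟨fun a => TEnc.toT a.1, fun _ _ h => Subtype.ext (TEnc.inj h)⟩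

/-- If `Q` is hard for instances with parameter at most `c`, then `Q` is not in `XP` unless
`P = NP`. -/
theorem xp_collapse {β : Type} [TEnc β] {κ : β → ℕ} {Q : β → Prop} (c : ℕ)
    (h : HardPr (fun y => κ y ≤ c) Q) (hQ : InXP κ Q) :
    ∀ L : Set (List Bool), InNP L → InP L := by
  intro L hL
  obtain ⟨f, hf, hpr, hfL⟩ := h L hL
  obtain ⟨d, ⟨M, g, e, _, _, hM⟩, hd⟩ := hQ
  -- bounds over the parameter values at most `c`
  obtain ⟨G, hG⟩ : ∃ G, ∀ i ≤ c, g i ≤ G := by
    refine ⟨∑ i ∈ Finset.range (c + 1), g i, fun i hi => ?_⟩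
    exact Finset.single_le_sum (f := g) (fun _ _ => Nat.zero_le _) (Finset.mem_range.2 (by omega))
  obtain ⟨E, hE⟩ : ∃ E, ∀ i ≤ c, e i ≤ E := by
    refine ⟨∑ i ∈ Finset.range (c + 1), e i, fun i hi => ?_⟩
    exact Finset.single_le_sum (f := e) (fun _ _ => Nat.zero_le _) (Finset.mem_range.2 (by omega))
  have h1 : FptTime (fun _ : {y : β // κ y ≤ c} => 0) (fun y => d y.1) := by
    refine ⟨M, fun _ => G, 2 * (Polynomial.X ^ E + 1), Computable.const _, fun a => ?_⟩
    obtain ⟨h2⟩ := hM a.1
    refine ⟨outputs_conv rfl rfl ?_ h2⟩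
    have h3 : bits a = bits a.1 := rfl
    rw [h3]
    simp only [Polynomial.eval_add, Polynomial.eval_mul, Polynomial.eval_ofNat,
      Polynomial.eval_pow, Polynomial.eval_X, Polynomial.eval_one]
    refine Nat.mul_le_mul (hG _ a.2) ?_
    have h4 : 1 ≤ (bits a.1).length := by
      rw [bits_length]
      exact sz_pos _
    have h5 : (bits a.1).length ^ e (κ a.1) ≤ (bits a.1).length ^ E :=
      Nat.pow_le_pow_right h4 (hE _ a.2)
    omega
  rw [fptTime_iff] at h1
  obtain ⟨C, h, p, _, hC⟩ := h1
  have h2 : Poly (fun y : {y : β // κ y ≤ c} => d y.1) := by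
    refine ⟨C, Polynomial.C (h 0) * p, fun a => ?_⟩
    rw [Polynomial.eval_mul, Polynomial.eval_C]
    exact hC a
  have h3 : PC (fun x : List Bool => x) (bits : {y : β // κ y ≤ c} → List Bool)
      (fun x => ⟨f x, hpr x⟩) := hf
  have h4 : PC (fun x : List Bool => x) (bits : Bool → List Bool) (fun x => d (f x)) :=
    PC.comp (g := fun y : {y : β // κ y ≤ c} => d y.1) h2 h3
  refine ⟨fun x => [d (f x)], PC.toPolyTime (PC.comp (g := fun b => [b]) (f := fun x => d (f x))
    PC.rawBool h4), fun x => ?_⟩
  rw [hfL x, ← hd]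
  simp

end Pool.Agent.H257R2.LJW
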