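import Pool.Agent.H741R2.LJPoly
import Pool.Agent.H257R2.LJW.Clique

/-!
# Hardness for `p_max ≤ 13`
-/

namespace Pool.Agent.H257R2.LJW

open Pool.Agent.NPC Pool.Agent.H633R2 Pool.Agent.H741R2.LJ

theorem jobs_iff (φ : List Cl) : SAT3 φ ↔ Jobs (inst φ) := by
  rw [inst_correct (le_refl 13)]
  unfold LateJobs Jobs
  refine and_congr ⟨fun h j hj => (h j hj).1, fun h j hj => ⟨h j hj, ?_⟩⟩ Iff.rfl
  unfold inst at hj
  rw [List.mem_map] at hj
  obtain ⟨x, _, rfl⟩ := hj
  exact len_le _ x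

theorem wjobs_iff (φ : List Cl) : SAT3 φ ↔ WJobs (instW φ) := by
  rw [instW_correct (le_refl 13)]
  unfold WeightedLateJobs WJobs
  refine and_congr ⟨fun h j hj => ⟨(h j hj).1, ?_⟩, fun h j hj => ⟨(h j hj).1, ?_⟩⟩ Iff.rfl
  all_goals
    unfold instW at hj
    rw [List.mem_map] at hj
    obtain ⟨x, _, rfl⟩ := hj
    first | exact le_refl 1 | exact len_le _ x

theorem pmax_inst (φ : List Cl) : pmax (inst φ) ≤ 13 := by
  unfold pmax inst
  simp only
  induction keys φ with
  | nil => simp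
  | cons x l ih =>
    simp only [List.map_cons, List.foldr_cons]
    exact max_le (len_le _ x) ih

theorem wpmax_inst (φ : List Cl) : wpmax (instW φ) ≤ 13 := by
  unfold wpmax instW
  simp only
  induction keys φ with
  | nil => simp
  | cons x l ih =>
    simp only [List.map_cons, List.foldr_cons]
    exact max_le (len_le _ x) ih

theorem hardPr_jobs : HardPr (fun I => pmax I ≤ 13) Jobs :=
  hardI_SAT3.toHardPr.trans inst_poly (fun φ _ => pmax_inst φ) (fun φ _ => jobs_iff φ)

theorem hardPr_wjobs : HardPr (fun I => wpmax I ≤ 13) WJobs :=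
  hardI_SAT3.toHardPr.trans instW_poly (fun φ _ => wpmax_inst φ) (fun φ _ => wjobs_iff φ)

end Pool.Agent.H257R2.LJW
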